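import Mathlib

namespace Pool.Agent.FS.PairDegree

open Finset

section General
variable {V : Type} [Fintype V] [DecidableEq V]

open Classical in
noncomputable def edges (R : V → V → V → Prop) : Finset (Finset V) :=
  (powersetCard 3 univ).filter
    (fun e => ∀ x ∈ e, ∀ y ∈ e, ∀ z ∈ e, x ≠ y → x ≠ z → y ≠ z → R x y z)

theorem mem_edges (R : V → V → V → Prop) (e : Finset V) :
    e ∈ edges R ↔ e.card = 3 ∧ ∀ x ∈ e, ∀ y ∈ e, ∀ z ∈ e, x ≠ y → x ≠ z → y ≠ z → R x y z := by
  unfold edges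
  simp only [mem_filter, mem_powersetCard, subset_univ, true_and]

open Classical in
theorem two_mul_degree (R : V → V → V → Prop) (s1 : ∀ x y z, R x y z → R y x z)
    (s2 : ∀ x y z, R x y z → R x z y) (ir : ∀ x z, ¬ R x x z) (v : V) :
    2 * ((edges R).filter (fun e => v ∈ e)).card
      = (univ.filter (fun p : V × V => R v p.1 p.2)).card := by
  have ne : ∀ x y z, R x y z → x ≠ y ∧ x ≠ z ∧ y ≠ z := by
    intro x y z h
    refine ⟨?_, ?_, ?_⟩
    · rintro rfl; exact ir _ _ h
    · rintro rfl; exact ir _ _ (s2 _ _ _ h)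
    · rintro rfl; exact ir _ _ (s2 _ _ _ (s1 _ _ _ h))
  have hm : ∀ p ∈ univ.filter (fun p : V × V => R v p.1 p.2),
      ({v, p.1, p.2} : Finset V) ∈ (edges R).filter (fun e => v ∈ e) := by
    rintro ⟨y, z⟩ hp
    have h : R v y z := (mem_filter.1 hp).2
    obtain ⟨n1, n2, n3⟩ := ne _ _ _ h
    refine mem_filter.2 ⟨(mem_edges _ _).2 ⟨card_eq_three.2 ⟨v, y, z, n1, n2, n3, rfl⟩, ?_⟩, by simp⟩
    have h1 := s1 _ _ _ h
    have h2 := s2 _ _ _ h
    have h3 := s2 _ _ _ h1
    have h4 := s1 _ _ _ h2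
    have h5 := s1 _ _ _ h3
    simp only [mem_insert, mem_singleton]
    rintro a (rfl | rfl | rfl) b (rfl | rfl | rfl) c (rfl | rfl | rfl) k1 k2 k3 <;>
      first | assumption | exact absurd rfl k1 | exact absurd rfl k2 | exact absurd rfl k3
  rw [card_eq_sum_card_fiberwise hm, mul_comm, ← smul_eq_mul, ← sum_const]
  refine sum_congr rfl fun e he => ?_
  obtain ⟨he, hv⟩ := mem_filter.1 he
  obtain ⟨hc, hR⟩ := (mem_edges _ _).1 he
  have hc2 : (e.erase v).card = 2 := by rw [card_erase_of_mem hv, hc]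
  have : (univ.filter (fun p : V × V => R v p.1 p.2)).filter
      (fun p => ({v, p.1, p.2} : Finset V) = e) = (e.erase v).offDiag := by
    ext ⟨y, z⟩
    simp only [mem_filter, mem_univ, true_and, mem_offDiag, mem_erase]
    constructor
    · rintro ⟨h, rfl⟩
      obtain ⟨n1, n2, n3⟩ := ne _ _ _ h
      exact ⟨⟨n1.symm, by simp⟩, ⟨n2.symm, by simp⟩, n3⟩
    · rintro ⟨⟨n1, m1⟩, ⟨n2, m2⟩, n3⟩
      refine ⟨hR v hv y m1 z m2 n1.symm n2.symm n3, ?_⟩
      apply eq_of_subset_of_card_le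
      · intro w hw
        simp only [mem_insert, mem_singleton] at hw
        rcases hw with rfl | rfl | rfl <;> assumption
      · rw [hc, card_eq_three.2 ⟨v, y, z, n1.symm, n2.symm, n3, rfl⟩]
  rw [this, offDiag_card, hc2]

end General

section Construction
variable {A B C : Type}

def rel (S : B → A → A → Prop) : A ⊕ B ⊕ C → A ⊕ B ⊕ C → A ⊕ B ⊕ C → Prop
  | .inl a, .inl a', .inr (.inl b) => S b a a'
  | .inl a, .inr (.inl b), .inl a' => S b a a'
  | .inr (.inl b), .inl a, .inl a' => S b a a'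
  | .inl _, .inr (.inl _), .inr (.inr _) => True
  | .inl _, .inr (.inr _), .inr (.inl _) => True
  | .inr (.inl _), .inl _, .inr (.inr _) => True
  | .inr (.inl _), .inr (.inr _), .inl _ => True
  | .inr (.inr _), .inl _, .inr (.inl _) => True
  | .inr (.inr _), .inr (.inl _), .inl _ => True
  | _, _, _ => False

theorem rel_s1 (S : B → A → A → Prop) (hs : ∀ b a a', S b a a' → S b a' a)
    (x y z : A ⊕ B ⊕ C) (h : rel S x y z) : rel S y x z := by
  rcases x with x | x | x <;> rcases y with y | y | y <;> rcases z with z | z | z <;>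
    first | exact h | exact hs _ _ _ h

theorem rel_s2 (S : B → A → A → Prop) (hs : ∀ b a a', S b a a' → S b a' a)
    (x y z : A ⊕ B ⊕ C) (h : rel S x y z) : rel S x z y := by
  rcases x with x | x | x <;> rcases y with y | y | y <;> rcases z with z | z | z <;>
    first | exact h | exact hs _ _ _ h

theorem rel_ir (S : B → A → A → Prop) (hi : ∀ b a, ¬ S b a a) (x z : A ⊕ B ⊕ C) :
    ¬ rel S x x z := by
  rcases x with x | x | x <;> rcases z with z | z | z <;>
    first | exact hi _ _ | exact fun h => h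

open Classical in
noncomputable def ind (p : Prop) : ℕ := if p then 1 else 0

theorem ind_true : ind True = 1 := if_pos trivial

theorem ind_false : ind False = 0 := if_neg (fun h => h)

open Classical in
theorem card_ind {X : Type} [Fintype X] (p : X → Prop) :
    (univ.filter p).card = ∑ x, ind (p x) := card_filter _ _

open Classical in
theorem link_card [Fintype A] [Fintype B] [Fintype C] (S : B → A → A → Prop) (m : ℕ)
    (hq : ∀ b a, (univ.filter (fun a' => S b a a')).card = 2 * m)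
    (hB : Fintype.card B = Fintype.card C + m) (hA : Fintype.card A = Fintype.card C + 2 * m)
    (v : A ⊕ B ⊕ C) :
    (univ.filter (fun p : (A ⊕ B ⊕ C) × (A ⊕ B ⊕ C) => rel S v p.1 p.2)).card
      = 2 * (Fintype.card A * Fintype.card B) := by
  have hq' : ∀ b a, ∑ a', ind (S b a a') = 2 * m := by
    intro b a; rw [← hq b a, card_ind]
  rw [card_ind, Fintype.sum_prod_type]
  rcases v with a | b | c
  · have e1 : ∑ a' : A, ∑ b : B, ind (S b a a') = Fintype.card B * (2 * m) := by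
      rw [sum_comm]; simp only [hq', sum_const, card_univ, smul_eq_mul]
    have e2 : ∑ b : B, ∑ a' : A, ind (S b a a') = Fintype.card B * (2 * m) := by
      rw [sum_comm, e1]
    simp only [Fintype.sum_sum_type, rel, ind_true, ind_false, sum_const, card_univ, smul_eq_mul,
      sum_add_distrib, mul_zero, mul_one, add_zero, zero_add]
    rw [e1, e2, hA]; ring
  · have e1 : ∑ a : A, ∑ a' : A, ind (S b a a') = Fintype.card A * (2 * m) := by
      simp only [hq', sum_const, card_univ, smul_eq_mul]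
    simp only [Fintype.sum_sum_type, rel, ind_true, ind_false, sum_const, card_univ, smul_eq_mul,
      sum_add_distrib, mul_zero, mul_one, add_zero, zero_add]
    rw [e1, hB]; ring
  · simp only [Fintype.sum_sum_type, rel, ind_true, ind_false, sum_const, card_univ, smul_eq_mul,
      sum_add_distrib, mul_zero, mul_one, add_zero, zero_add]
    ring

theorem no_two_one (S : B → A → A → Prop)
    (hl : ∀ b b' a x x', b ≠ b' → S b x a → S b x' a → S b' x a → S b' x' a → x = x')
    {t : ℕ} (ht : 2 ≤ t) (x y z : Fin t → A ⊕ B ⊕ C) (hx : Function.Injective x)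
    (hz : Function.Injective z) (h : ∀ i j k, rel S (x i) (y j) (z k))
    (h2 : 2 ≤ (univ.filter (fun i => (x i).isLeft = true)).card)
    (h1 : 1 ≤ (univ.filter (fun j => (y j).isLeft = true)).card) : False := by
  obtain ⟨i, hi, i', hi', hne⟩ := one_lt_card.1 h2
  obtain ⟨j, hj⟩ := card_pos.1 h1
  obtain ⟨a, ha⟩ := Sum.isLeft_iff.1 (mem_filter.1 hi).2
  obtain ⟨a', ha'⟩ := Sum.isLeft_iff.1 (mem_filter.1 hi').2
  obtain ⟨c, hc⟩ := Sum.isLeft_iff.1 (mem_filter.1 hj).2
  have key : ∀ k, ∃ b, z k = .inr (.inl b) ∧ S b a c ∧ S b a' c := by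
    intro k
    have p := h i j k
    have p' := h i' j k
    rw [ha, hc] at p; rw [ha', hc] at p'
    rcases hzk : z k with w | w | w
    · rw [hzk] at p; exact p.elim
    · rw [hzk] at p p'; exact ⟨w, rfl, p, p'⟩
    · rw [hzk] at p; exact p.elim
  obtain ⟨b, eb, p1, p2⟩ := key ⟨0, by omega⟩
  obtain ⟨b', eb', p3, p4⟩ := key ⟨1, by omega⟩
  have hb : b ≠ b' := by
    rintro rfl
    have := hz (eb.trans eb'.symm)
    simp at this
  have := hl b b' c a a' hb p1 p2 p3 p4
  exact hne (hx (by rw [ha, ha', this]))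

theorem no_three (S : B → A → A → Prop) {t : ℕ} (x y z : Fin t → A ⊕ B ⊕ C)
    (h : ∀ i j k, rel S (x i) (y j) (z k))
    (h1 : 1 ≤ (univ.filter (fun i => (x i).isLeft = true)).card)
    (h2 : 1 ≤ (univ.filter (fun j => (y j).isLeft = true)).card)
    (h3 : 1 ≤ (univ.filter (fun j => (z j).isLeft = true)).card) : False := by
  obtain ⟨i, hi⟩ := card_pos.1 h1
  obtain ⟨j, hj⟩ := card_pos.1 h2
  obtain ⟨k, hk⟩ := card_pos.1 h3
  obtain ⟨a, ha⟩ := Sum.isLeft_iff.1 (mem_filter.1 hi).2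
  obtain ⟨b, hb⟩ := Sum.isLeft_iff.1 (mem_filter.1 hj).2
  obtain ⟨c, hc⟩ := Sum.isLeft_iff.1 (mem_filter.1 hk).2
  have p := h i j k
  rw [ha, hb, hc] at p
  exact p.elim

theorem copy_le (S : B → A → A → Prop) (hs : ∀ b a a', S b a a' → S b a' a)
    (hl : ∀ b b' a x x', b ≠ b' → S b x a → S b x' a → S b' x a → S b' x' a → x = x')
    {t : ℕ} (ht : 2 ≤ t) (f : Fin 3 × Fin t → A ⊕ B ⊕ C) (hf : Function.Injective f)
    (h : ∀ i j k, rel S (f (0, i)) (f (1, j)) (f (2, k))) :
    (univ.filter (fun u => (f u).isLeft = true)).card ≤ t := by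
  have inj : ∀ p : Fin 3, Function.Injective (fun i => f (p, i)) := fun p i j e =>
    (Prod.ext_iff.1 (hf e)).2
  obtain ⟨N, hN⟩ : ∃ N : Fin 3 → ℕ,
      ∀ p, N p = (univ.filter (fun i => (f (p, i)).isLeft = true)).card := ⟨_, fun _ => rfl⟩
  have e : (univ.filter (fun u => (f u).isLeft = true)).card = N 0 + N 1 + N 2 := by
    simp only [hN, card_filter]
    rw [Fintype.sum_prod_type, Fin.sum_univ_three]
  have le : ∀ p : Fin 3, N p ≤ t := fun p => by
    rw [hN]; exact (card_filter_le _ _).trans (by simp)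
  have s1 := @rel_s1 A B C S hs
  have s2 := @rel_s2 A B C S hs
  have q01 : 2 ≤ N 0 → 1 ≤ N 1 → False := by
    rw [hN, hN]; exact no_two_one S hl ht _ _ _ (inj 0) (inj 2) h
  have q02 : 2 ≤ N 0 → 1 ≤ N 2 → False := by
    rw [hN, hN]
    exact no_two_one S hl ht _ _ _ (inj 0) (inj 1) (fun i j k => s2 _ _ _ (h i k j))
  have q10 : 2 ≤ N 1 → 1 ≤ N 0 → False := by
    rw [hN, hN]
    exact no_two_one S hl ht _ _ _ (inj 1) (inj 2) (fun i j k => s1 _ _ _ (h j i k))
  have q12 : 2 ≤ N 1 → 1 ≤ N 2 → False := by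
    rw [hN, hN]
    exact no_two_one S hl ht _ _ _ (inj 1) (inj 0) (fun i j k => s2 _ _ _ (s1 _ _ _ (h k i j)))
  have q20 : 2 ≤ N 2 → 1 ≤ N 0 → False := by
    rw [hN, hN]
    exact no_two_one S hl ht _ _ _ (inj 2) (inj 1) (fun i j k => s1 _ _ _ (s2 _ _ _ (h j k i)))
  have q21 : 2 ≤ N 2 → 1 ≤ N 1 → False := by
    rw [hN, hN]
    exact no_two_one S hl ht _ _ _ (inj 2) (inj 0)
      (fun i j k => s1 _ _ _ (s2 _ _ _ (s1 _ _ _ (h k j i))))
  have q3 : 1 ≤ N 0 → 1 ≤ N 1 → 1 ≤ N 2 → False := by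
    rw [hN, hN, hN]; exact no_three S _ _ _ h
  have l0 := le 0
  have l1 := le 1
  have l2 := le 2
  rw [e]
  by_cases a1 : 1 ≤ N 0 <;> by_cases a2 : 2 ≤ N 0 <;> by_cases b1 : 1 ≤ N 1 <;>
    by_cases b2 : 2 ≤ N 1 <;> by_cases c1 : 1 ≤ N 2 <;> by_cases c2 : 2 ≤ N 2 <;>
    first
      | omega | exact (q01 a2 b1).elim | exact (q02 a2 c1).elim | exact (q10 b2 a1).elim
      | exact (q12 b2 c1).elim | exact (q20 c2 a1).elim | exact (q21 c2 b1).elim
      | exact (q3 a1 b1 c1).elim

theorem packing_le [Fintype A] [Fintype B] [Fintype C] [DecidableEq A] [DecidableEq B]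
    [DecidableEq C] (S : B → A → A → Prop) (hs : ∀ b a a', S b a a' → S b a' a)
    (hl : ∀ b b' a x x', b ≠ b' → S b x a → S b x' a → S b' x a → S b' x' a → x = x')
    (m : ℕ) (hB : Fintype.card B = Fintype.card C + m)
    (hA : Fintype.card A = Fintype.card C + 2 * m)
    {t : ℕ} (ht : 2 ≤ t) (P : Finset (Fin 3 × Fin t ↪ A ⊕ B ⊕ C))
    (hP : ∀ f ∈ P, ∀ i j k : Fin t,
      ({f (0, i), f (1, j), f (2, k)} : Finset (A ⊕ B ⊕ C)) ∈ edges (rel S))
    (hd : ∀ f ∈ P, ∀ g ∈ P, f ≠ g → Disjoint (univ.map f) (univ.map g)) :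
    m ≤ (univ.filter (fun v : A ⊕ B ⊕ C => ∀ f ∈ P, v ∉ univ.map f)).card := by
  classical
  have h1 : P.card * (3 * t) ≤ Fintype.card (A ⊕ B ⊕ C) := by
    have := card_biUnion (s := P) (t := fun f => univ.map f) (fun f hf g hg hne => hd f hf g hg hne)
    have e : ∑ f ∈ P, (univ.map f).card = P.card * (3 * t) := by simp
    rw [← e, ← this]
    exact card_le_univ _
  have h2 : ∀ f ∈ P, ((univ.map f).filter (fun v => v.isLeft = true)).card ≤ t := by
    intro f hf
    rw [filter_map, card_map]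
    refine copy_le S hs hl ht f f.injective fun i j k => ?_
    refine ((mem_edges _ _).1 (hP f hf i j k)).2 _ (by simp) _ (by simp) _ (by simp) ?_ ?_ ?_ <;>
      exact fun e => by simpa using (Prod.ext_iff.1 (f.injective e)).1
  have h3 : (univ.map (Function.Embedding.inl : A ↪ A ⊕ B ⊕ C)) ⊆
      univ.filter (fun v : A ⊕ B ⊕ C => ∀ f ∈ P, v ∉ univ.map f) ∪
        P.biUnion (fun f => (univ.map f).filter (fun v => v.isLeft = true)) := by
    intro v hv
    obtain ⟨a, -, rfl⟩ := mem_map.1 hv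
    by_cases hc : ∀ f ∈ P, (Function.Embedding.inl a : A ⊕ B ⊕ C) ∉ univ.map f
    · exact mem_union_left _ (mem_filter.2 ⟨mem_univ _, hc⟩)
    · push Not at hc
      obtain ⟨f, hf, hv⟩ := hc
      exact mem_union_right _ (mem_biUnion.2 ⟨f, hf, mem_filter.2 ⟨hv, rfl⟩⟩)
  have h4 := (card_le_card h3).trans (card_union_le _ _)
  have h5 := card_biUnion_le_card_mul P _ t h2
  rw [card_map, card_univ] at h4
  rw [Fintype.card_sum, Fintype.card_sum] at h1
  have e : P.card * (3 * t) = 3 * (P.card * t) := by ring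
  omega

end Construction

theorem line_card {F : Type} [Field F] (u w x y : F) (h : u ≠ 0 ∨ w ≠ 0) :
    Nat.card {z : F × F // u * (x + z.1) + w * (y + z.2) = 1} = Nat.card F := by
  rcases h with h | h
  · refine Nat.card_congr ⟨fun z => z.1.2,
      fun s => ⟨((1 - w * (y + s)) / u - x, s), by field_simp; ring⟩, ?_, fun _ => rfl⟩
    rintro ⟨z, hz⟩
    apply Subtype.ext
    apply Prod.ext
    · show (1 - w * (y + z.2)) / u - x = z.1
      rw [sub_eq_iff_eq_add, div_eq_iff h]
      linear_combination -hz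
    · rfl
  · refine Nat.card_congr ⟨fun z => z.1.1,
      fun s => ⟨(s, (1 - u * (x + s)) / w - y), by field_simp; ring⟩, ?_, fun _ => rfl⟩
    rintro ⟨z, hz⟩
    apply Subtype.ext
    apply Prod.ext
    · rfl
    · show (1 - u * (x + z.1)) / w - y = z.2
      rw [sub_eq_iff_eq_add, div_eq_iff h]
      linear_combination -hz

theorem exists_design (r : ℕ) : ∃ (A B C : Type) (_ : Fintype A) (_ : Fintype B) (_ : Fintype C)
    (S : B → A → A → Prop), (∀ b a a', S b a a' → S b a' a) ∧ (∀ b a, ¬ S b a a) ∧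
    (∀ b b' a x x', b ≠ b' → S b x a → S b x' a → S b' x a → S b' x' a → x = x') ∧
    (∀ b a, Nat.card {a' // S b a a'} = 2 * 2 ^ r) ∧
    Fintype.card B = Fintype.card C + 2 ^ r ∧ Fintype.card A = Fintype.card C + 2 * 2 ^ r ∧
    Fintype.card A = 4 * (2 ^ r) ^ 2 := by
  classical
  let F := GaloisField 2 (r + 1)
  have : Fintype F := Fintype.ofFinite F
  have hF : Fintype.card F = 2 * 2 ^ r := by
    rw [← Nat.card_eq_fintype_card, GaloisField.card 2 (r + 1) (by omega)]; ring
  set m := 2 ^ r with hm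
  have m1 : 1 ≤ m := Nat.one_le_two_pow
  have hA : Fintype.card (F × F) = 4 * m ^ 2 := by rw [Fintype.card_prod, hF]; ring
  have hmm : m ≤ m ^ 2 := by nlinarith
  obtain ⟨T, hT, hTc⟩ := exists_subset_card_eq (s := (univ : Finset (F × F)).erase 0)
    (n := 4 * m ^ 2 - m) (by rw [card_erase_of_mem (mem_univ _), card_univ, hA]; omega)
  have two : (2 : F) = 0 := CharTwo.two_eq_zero
  have nz : ∀ b : T, b.1.1 ≠ 0 ∨ b.1.2 ≠ 0 := by
    intro b
    have := (mem_erase.1 (hT b.2)).1
    by_contra hc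
    push Not at hc
    exact this (Prod.ext hc.1 hc.2)
  refine ⟨F × F, T, Fin (4 * m ^ 2 - 2 * m), inferInstance, inferInstance, inferInstance,
    fun b a a' => b.1.1 * (a.1 + a'.1) + b.1.2 * (a.2 + a'.2) = 1, ?_, ?_, ?_, ?_, ?_, ?_, hA⟩
  · intro b a a' h
    linear_combination h
  · intro b a h
    exact one_ne_zero (α := F) (by linear_combination -h + (b.1.1 * a.1 + b.1.2 * a.2) * two)
  · intro b b' a x x' hb p1 p2 p3 p4
    by_contra hx
    apply hb
    have d1 : b.1.1 * (x.1 - x'.1) + b.1.2 * (x.2 - x'.2) = 0 := by linear_combination p1 - p2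
    have d2 : b'.1.1 * (x.1 - x'.1) + b'.1.2 * (x.2 - x'.2) = 0 := by linear_combination p3 - p4
    have det : b.1.1 * b'.1.2 - b.1.2 * b'.1.1 = 0 := by
      by_contra hdet
      apply hx
      apply Prod.ext
      · have : (b.1.1 * b'.1.2 - b.1.2 * b'.1.1) * (x.1 - x'.1) = 0 := by
          linear_combination b'.1.2 * d1 - b.1.2 * d2
        exact sub_eq_zero.1 ((mul_eq_zero.1 this).resolve_left hdet)
      · have : (b.1.1 * b'.1.2 - b.1.2 * b'.1.1) * (x.2 - x'.2) = 0 := by
          linear_combination b.1.1 * d2 - b'.1.1 * d1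
        exact sub_eq_zero.1 ((mul_eq_zero.1 this).resolve_left hdet)
    apply Subtype.ext
    apply Prod.ext
    · linear_combination b'.1.1 * p1 - b.1.1 * p3 + (x.2 + a.2) * det
    · linear_combination b'.1.2 * p1 - b.1.2 * p3 - (x.1 + a.1) * det
  · intro b a
    rw [← hF, ← Nat.card_eq_fintype_card]
    exact line_card _ _ _ _ (nz b)
  · rw [Fintype.card_coe, hTc, Fintype.card_fin]; omega
  · rw [hA, Fintype.card_fin]; omega

end Pool.Agent.FS.PairDegree
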